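import Pool.Agent.Y271.RO.Stm

/-!
# RO-MID: convergence of the `q n` with respect to the spectral measures
-/

set_option autoImplicit false

namespace Pool.Agent.Y287.RO

open MeasureTheory Set Metric Filter Topology
open scoped InnerProductSpace ENNReal NNReal ComplexConjugate ContDiff
open Pool.Agent.Y283.NK (ct IsMul HasHyp)
open Pool.Agent.Y271.RO

theorem bd_of {χ : ℂ → ℂ} {a : ℂ} {ρ : ℝ} (hPOM : S_POM) (hχ : ContDiff ℝ 1 χ)
    (hs : tsupport χ ⊆ ball a ρ) : ∃ M, Bd (db χ) a ρ M := by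
  obtain ⟨-, -, -, -, h5, -, h7⟩ := hPOM
  have hc : Continuous (db χ) := h5 χ hχ
  have hcs : HasCompactSupport (db χ) := by
    refine HasCompactSupport.intro (K := tsupport χ) ?_ fun z hz => h7 χ z hz
    exact Metric.isCompact_of_isClosed_isBounded (isClosed_tsupport χ)
      (isBounded_ball.subset hs)
  obtain ⟨M, hM⟩ := hcs.exists_bound_of_continuous hc
  exact ⟨M, hc.measurable, (norm_nonneg _).trans (hM 0), hM, fun z hz => h7 χ z fun h => hz (hs h)⟩

theorem main (_hHT : S_HT) (hCTG : S_CTG) (hPOM : S_POM) : S_MID := by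
  intro S _ μ _ φ hφ u a ρ C q G hρ hq hqb hG hGb hweak hstar ψ hψ hψs x
  obtain ⟨h1, h2, h3, h4, h5, h6, h7⟩ := hPOM
  have hψ1 : ContDiff ℝ 1 ψ := hψ.of_le (by exact_mod_cast le_top)
  obtain ⟨-, -, hF⟩ := hCTG S μ φ hφ x u
  -- the product
  have hGat : ∀ z ∈ ball a ρ, AnalyticAt ℂ G z := fun z hz =>
    hG.analyticAt (isOpen_ball.mem_nhds hz)
  have hψ0 : ∀ z, z ∉ ball a ρ → ψ =ᶠ[𝓝 z] fun _ => 0 := by
    intro z hz
    have h8 : z ∉ tsupport ψ := fun h => hz (hψs h)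
    exact notMem_tsupport_iff_eventuallyEq.1 h8
  obtain ⟨χ, hχ⟩ : ∃ χ : ℂ → ℂ, χ = fun z => G z * ψ z := ⟨_, rfl⟩
  have hχd : ContDiff ℝ 1 χ := by
    rw [contDiff_iff_contDiffAt]
    intro z
    by_cases hz : z ∈ ball a ρ
    · rw [hχ]
      exact ((hGat z hz).contDiffAt.restrict_scalars ℝ).mul hψ1.contDiffAt
    · refine (contDiffAt_const (c := (0 : ℂ))).congr_of_eventuallyEq ?_
      filter_upwards [hψ0 z hz] with w hw
      rw [hχ]
      simp only []
      rw [hw, mul_zero]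
  have hχs : tsupport χ ⊆ ball a ρ := by
    rw [hχ]
    exact (tsupport_mul_subset_right).trans hψs
  have hχc : HasCompactSupport χ := by
    exact Metric.isCompact_of_isClosed_isBounded (isClosed_tsupport χ)
      (isBounded_ball.subset hχs)
  have hdb : ∀ z, db χ z = G z * db ψ z := by
    intro z
    by_cases hz : z ∈ ball a ρ
    · have hGd : DifferentiableAt ℂ G z := (hGat z hz).differentiableAt
      rw [hχ, h2 G ψ z (hGd.restrictScalars ℝ) (hψ1.differentiable one_ne_zero z), h3 G z hGd,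
        zero_mul, zero_add]
    · rw [h7 χ z fun h => hz (hχs h), h7 ψ z fun h => hz (hψs h), mul_zero]
  obtain ⟨M, hM⟩ := bd_of ⟨h1, h2, h3, h4, h5, h6, h7⟩ hχd hχs
  obtain ⟨M', hM'⟩ := bd_of ⟨h1, h2, h3, h4, h5, h6, h7⟩ hψ1 hψs
  obtain ⟨k1, -⟩ := hF a ρ M' _ hM'
  obtain ⟨-, k2⟩ := hF a ρ M _ hM
  have hoff : ∀ z, z ∉ ball a ρ → db ψ z = 0 := fun z hz => h7 ψ z fun h => hz (hψs h)
  -- integrals over the ball
  have hball : ∀ g : ℂ → ℂ, ∫ z in ball a ρ, g z * (db ψ z * ct φ x u z) =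
      ∫ z, g z * db ψ z * ct φ x u z := by
    intro g
    rw [setIntegral_eq_integral_of_forall_compl_eq_zero]
    · refine integral_congr_ae (Eventually.of_forall fun z => ?_)
      simp only []
      ring
    · intro z hz
      rw [hoff z hz, zero_mul, mul_zero]
  have hw := hweak (fun z => db ψ z * ct φ x u z) k1.integrableOn
  simp only [hball] at hw
  have hst := hstar ψ hψ hψs x
  have hpi : (Real.pi : ℂ) ≠ 0 := Complex.ofReal_ne_zero.2 Real.pi_ne_zero
  -- the limit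
  have hlim : ∫ z, G z * db ψ z * ct φ x u z =
      -(Real.pi * ∫ s, conj (x s) * (G (φ s) * ψ (φ s) * u s) ∂μ) := by
    have e1 : ∫ z, G z * db ψ z * ct φ x u z = ∫ z, db χ z * ct φ x u z := by
      refine integral_congr_ae (Eventually.of_forall fun z => ?_)
      simp only [hdb]
    rw [e1, ← k2, ← integral_const_mul, ← integral_neg]
    refine integral_congr_ae (Eventually.of_forall fun s => ?_)
    have e0 : χ (φ s) = G (φ s) * ψ (φ s) := by rw [hχ]
    have e3 : ht (db χ) (φ s) = -(Real.pi * (G (φ s) * ψ (φ s))) := by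
      rw [h1 χ hχd hχc, e0]
    show conj (x s) * (ht (db χ) (φ s) * u s) =
      -(Real.pi * (conj (x s) * (G (φ s) * ψ (φ s) * u s)))
    rw [e3]
    ring
  have h8 := (hst.sub hw).div_const (Real.pi : ℂ)
  have e2 : (fun n => ((∫ z, q n z * db ψ z * ct φ x u z) +
      Real.pi * ∫ s, conj (x s) * (q n (φ s) * ψ (φ s) * u s) ∂μ -
      ∫ z, q n z * db ψ z * ct φ x u z) / (Real.pi : ℂ)) =
      fun n => ∫ s, conj (x s) * (q n (φ s) * ψ (φ s) * u s) ∂μ := by
    funext n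
    rw [add_sub_cancel_left, mul_div_cancel_left₀ _ hpi]
  rw [e2, hlim] at h8
  have e3 : ((0 : ℂ) - -(Real.pi * ∫ s, conj (x s) * (G (φ s) * ψ (φ s) * u s) ∂μ)) /
      (Real.pi : ℂ) = ∫ s, conj (x s) * (G (φ s) * ψ (φ s) * u s) ∂μ := by
    rw [sub_neg_eq_add, zero_add, mul_div_cancel_left₀ _ hpi]
  rw [e3] at h8
  exact h8

end Pool.Agent.Y287.RO
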